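import Pool.Agent.KQ.Final
import Pool.Agent.KBG.Main

/-!
# 4-connected Klein bottle graphs with an independent set of half of the vertices
-/

set_option autoImplicit false

/-- Let `G` be a finite simple 4-connected graph which has a topological embedding in the Klein
bottle (both conditions are those of the frozen statement).  If `G` has an independent set `I` which
contains at least half of the vertices, then `G` is Hamiltonian. -/
theorem Pool.Agent.Results.MP_b1567b_co.HalfIndependentSet.result
    (V : Type) [Fintype V] [DecidableEq V] (G : SimpleGraph V)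
    (h4 : 5 ≤ Fintype.card V ∧
      ∀ S : Finset V, S.card < 4 → (G.induce ((S : Set V)ᶜ)).Connected)
    (hG : KBG.EmbedsInKleinBottle G)
    (I : Set V) (hI : ∀ u ∈ I, ∀ v ∈ I, ¬ G.Adj u v) (hc : Fintype.card V ≤ 2 * I.ncard) :
    G.IsHamiltonian := by
  obtain ⟨Ω, _, M, hE⟩ := KBG.bridge h4 hG
  exact KR.hamiltonian V Ω G M I h4 hE hI (by rw [Nat.card_eq_fintype_card]; exact hc)
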