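import Pool.Agent.KSQ.Cnt
import Pool.Agent.KBG.Main

/-!
# 4-connected triangle-free graphs on the Klein bottle are Hamiltonian
-/

set_option autoImplicit false

/-- Every finite simple 4-connected triangle-free graph which has a topological embedding in the
Klein bottle (as in the frozen statement) is Hamiltonian.  More generally, let `G` be a finite simple
connected graph with all degrees at least four and a cellular embedding (given by its flags) without
triangular faces in a closed surface of Euler characteristic at least `0`.  Then `G` is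
Hamiltonian. -/
theorem Pool.Agent.Results.MP_b1567b_co.TriangleFree.result :
    (∀ (V : Type) [Fintype V] [DecidableEq V] (G : SimpleGraph V),
      (5 ≤ Fintype.card V ∧
        ∀ S : Finset V, S.card < 4 → (G.induce ((S : Set V)ᶜ)).Connected) →
      KBG.EmbedsInKleinBottle G → G.CliqueFree 3 → G.IsHamiltonian) ∧
    (∀ (V Ω : Type) [Fintype V] [DecidableEq V] [Finite Ω] (G : SimpleGraph V) (M : KR.GMap G Ω),
      M.EulerNonneg → G.Connected → (∀ v, 4 ≤ (G.neighborSet v).ncard) →
      (∀ φ : M.Face, {x : Ω | Quot.mk M.Fr x = φ}.ncard ≠ 6) → G.IsHamiltonian) := by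
  refine ⟨fun V _ _ G h4 hG h3 => ?_, fun _ _ _ _ _ _ M hE hc hd h3 => KSQ.main M hc hd hE h3⟩
  obtain ⟨Ω, _, M, hE⟩ := KBG.bridge h4 hG
  exact KSQ.main4 M h4 hE h3
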