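import Pool.Agent.TFK.Final
import Pool.Agent.KBG.Main

/-!
# 2-factors and largest 2-matchings of 4-connected graphs on surfaces
-/

set_option autoImplicit false

/-- Every finite simple 4-connected graph `G` which has a topological embedding in the Klein bottle
(as in the frozen statement) has a 2-factor.  More generally, if `G` is 4-connected and has a cellular
embedding (given by its flags) in a closed surface of Euler characteristic at least `-k`, then `G` has
a subgraph `H` with all degrees at most two and at least `|V(G)| - k` edges, and for every `k` this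
number of edges is best possible. -/
theorem Pool.Agent.Results.MP_b1567b_co.TwoFactors.result :
    (∀ (V : Type) [Fintype V] [DecidableEq V] (G : SimpleGraph V),
      (5 ≤ Fintype.card V ∧
        ∀ S : Finset V, S.card < 4 → (G.induce ((S : Set V)ᶜ)).Connected) →
      KBG.EmbedsInKleinBottle G →
      ∃ H : SimpleGraph V, H ≤ G ∧ ∀ v, (H.neighborSet v).ncard = 2) ∧
    (∀ (V Ω : Type) [Fintype V] [Finite Ω] (G : SimpleGraph V) (M : KR.GMap G Ω) (k : ℕ),
      Nat.card Ω ≤ 4 * (Nat.card V + Nat.card M.Face + k) →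
      (5 ≤ Fintype.card V ∧
        ∀ S : Finset V, S.card < 4 → (G.induce ((S : Set V)ᶜ)).Connected) →
      ∃ H : SimpleGraph V, H ≤ G ∧ (∀ v, (H.neighborSet v).ncard ≤ 2) ∧
        Nat.card V ≤ H.edgeSet.ncard + k) ∧
    (∀ k : ℕ, ∃ (V Ω : Type) (_ : Fintype V) (_ : Finite Ω) (G : SimpleGraph V)
      (M : KR.GMap G Ω), Nat.card Ω ≤ 4 * (Nat.card V + Nat.card M.Face + k) ∧
      (5 ≤ Fintype.card V ∧
        ∀ S : Finset V, S.card < 4 → (G.induce ((S : Set V)ᶜ)).Connected) ∧
      ∀ H : SimpleGraph V, H ≤ G → (∀ v, (H.neighborSet v).ncard ≤ 2) →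
        H.edgeSet.ncard + k ≤ Nat.card V) := by
  refine ⟨fun V _ _ G h4 hG => ?_, fun V Ω _ _ G M k hk h4 => ?_, Pool.Agent.TFK.SHARP_thm⟩
  · obtain ⟨Ω, _, M, hE⟩ := KBG.bridge h4 hG
    obtain ⟨H, h1, _, _, h2⟩ := Pool.Agent.TFK.main_all V Ω G M 0 hE h4
    exact ⟨H, h1, h2 rfl⟩
  · obtain ⟨H, h1, h2, h3, _⟩ := Pool.Agent.TFK.main_all V Ω G M k hk h4
    exact ⟨H, h1, h2, h3⟩
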